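import Pool.Agent.Helper2.EG.Stmts

set_option autoImplicit false

/-! ONE : for a fixed prime `u` almost all `n` which are not bad modulo `u` have the move -/

namespace Pool.Agent.Helper2.EG

theorem one_mod {u a b : ℕ} (h : a ≡ b [MOD u]) (q : ℕ) (hd : u ∣ (b * (b + q)) ^ 2 + q) :
    u ∣ (a * (a + q)) ^ 2 + q := by
  have h1 : (a * (a + q)) ^ 2 + q ≡ (b * (b + q)) ^ 2 + q [MOD u] :=
    ((h.mul (h.add_right q)).pow 2).add_right q
  exact (h1.dvd_iff (dvd_refl u)).2 hd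

theorem one_sq {u a b : ℕ} (h : a ≡ b [MOD u]) (hs : ∃ s : ℕ, s ^ 2 ≡ 4 * a ^ 3 + 1 [MOD u]) :
    ∃ s : ℕ, s ^ 2 ≡ 4 * b ^ 3 + 1 [MOD u] := by
  obtain ⟨s, hs⟩ := hs
  exact ⟨s, hs.trans (((h.pow 3).mul_left 4).add_right 1)⟩

theorem one_crt (m κ u c : ℕ) (hm2 : m.Coprime 2) (hκ : κ.Coprime m) (hu4 : u % 4 = 1)
    (hum : u.Coprime m) (hc : c.Coprime u) :
    ∃ r : ℕ, r ≡ 1 [MOD 4] ∧ r ≡ κ [MOD m] ∧ r ≡ c [MOD u] ∧ r.Coprime (4 * m * u) := by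
  have h4m : Nat.Coprime 4 m := by
    have : Nat.Coprime (2 ^ 2) m := Nat.Coprime.pow_left 2 hm2.symm
    simpa using this
  have hu2 : Nat.Coprime 4 u := by
    have h2 : Nat.Coprime 2 u := by
      refine (Nat.Prime.coprime_iff_not_dvd Nat.prime_two).2 ?_
      omega
    have : Nat.Coprime (2 ^ 2) u := Nat.Coprime.pow_left 2 h2
    simpa using this
  obtain ⟨r1, hr1, hr1'⟩ := Nat.chineseRemainder h4m 1 κ
  have h4mu : Nat.Coprime (4 * m) u := Nat.Coprime.mul_left hu2 hum.symm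
  obtain ⟨r, hr, hr'⟩ := Nat.chineseRemainder h4mu r1 c
  have h1 : r ≡ 1 [MOD 4] := (hr.of_mul_right m).trans hr1
  have h2 : r ≡ κ [MOD m] := (hr.of_mul_left 4).trans hr1'
  refine ⟨r, h1, h2, hr', ?_⟩
  refine Nat.Coprime.mul_right (Nat.Coprime.mul_right ?_ ?_) ?_
  · rw [Nat.Coprime, h1.gcd_eq]; norm_num
  · rw [Nat.Coprime, h2.gcd_eq]; exact hκ
  · rw [Nat.Coprime, hr'.gcd_eq]; exact hc

theorem st_ONE : ST_ONE := by
  intro hDU hQD hCNT hDEN hDIR hREC hC0 m κ u hm hm2 hκ hu hu4 hum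
  obtain ⟨dsub, dun, dfin, dbig⟩ := hDU
  have key : ∀ ν : ℕ, ∃ E : Set ℕ, DZ E ∧ ∀ n : ℕ, n % u = ν → u ≤ n → ¬ u ∣ n →
      (∃ s : ℕ, s ^ 2 ≡ 4 * n ^ 3 + 1 [MOD u]) → ¬ OKu m κ u n → n ∈ E := by
    intro ν
    by_cases hν : ¬ u ∣ ν ∧ ∃ s : ℕ, s ^ 2 ≡ 4 * ν ^ 3 + 1 [MOD u]
    · obtain ⟨c, a, hc, ha, hca, hq⟩ := hC0 u ν hu hu4 hν.1 hν.2
      obtain ⟨r, hr4, hrm, hru, hr⟩ := one_crt m κ u c hm2 hκ hu4 hum hc
      have hD := hQD ⟨dsub, dun, dfin, dbig⟩ hCNT hDEN hDIR (4 * m * u) r u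
        (Nat.mul_pos (Nat.mul_pos (by norm_num) hm) hu.pos) hr (by
          intro q hqp hqr
          have h1 : q ≡ 1 [MOD 4] := ((hqr.of_mul_right u).of_mul_right m).trans hr4
          have h2 : q ≡ c [MOD u] := (hqr.of_mul_left (4 * m)).trans hru
          exact hREC u q hu hqp hu4 h1 ⟨a, ha, h2.trans hca⟩)
      refine ⟨_, hD, ?_⟩
      intro n hnν hun _ _ hno
      rintro ⟨q, hqp, hqr, hqn, hqd⟩
      apply hno
      have h2 : q ≡ c [MOD u] := (hqr.of_mul_left (4 * m)).trans hru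
      have h3 : q ≡ κ [MOD m] := ((hqr.of_mul_right u).of_mul_left 4).trans hrm
      have hnν' : n ≡ ν [MOD u] := by
        rw [← hnν]; exact (Nat.mod_modEq n u).symm
      refine ⟨q, hqp.one_lt, hqn, hun, ?_, hqd, one_mod hnν' q (hq q h2), h3⟩
      rw [Nat.Coprime, h2.gcd_eq]; exact hc
    · refine ⟨∅, dfin _ Set.finite_empty, ?_⟩
      intro n hnν _ h1 h2 _
      exfalso
      apply hν
      have hnν' : n ≡ ν [MOD u] := by
        rw [← hnν]; exact (Nat.mod_modEq n u).symm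
      exact ⟨fun h => h1 ((hnν'.dvd_iff (dvd_refl u)).2 h), one_sq hnν' h2⟩
  choose E hE hEn using key
  refine dsub _ ({n | n < u} ∪ {n | ∃ k < u, n ∈ E k}) ?_ (dun _ _ (dfin _ (Set.finite_lt_nat u))
    (dbig u E fun k _ => hE k))
  rintro n ⟨h1, h2, h3⟩
  rcases Nat.lt_or_ge n u with h | h
  · exact Or.inl h
  · exact Or.inr ⟨n % u, Nat.mod_lt _ hu.pos, hEn _ n rfl h h1 h2 h3⟩

end Pool.Agent.Helper2.EG

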