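import Pool.Agent.Helper2.EG.Stmts

set_option autoImplicit false

/-! T5 : tail with the prime five -/

namespace Pool.Agent.Helper2.EG

theorem t5_grow {n : ℕ} (hn : 0 < n) (hMV : MV n) (hLV : ST_LV) {j P : ℕ} (hj : 3 ≤ j)
    (hP : Lv n j P) (h5 : P % 5 = 2 ∨ P % 5 = 3) : Om n (j + 1) < Om n (j + 2) := by
  have h1 : n * 2 ^ j ≤ P := hLV.2.2.1 n j P 1 P hn hP
  have h2 : 2 ^ 3 ≤ 2 ^ j := Nat.pow_le_pow_right (by norm_num) hj
  have h3 : 8 ≤ P := by nlinarith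
  have h4 : 5 ∣ P ^ 2 + 1 := by
    apply Nat.dvd_of_mod_eq_zero
    rcases h5 with h | h
    · rw [Nat.add_mod, Nat.pow_mod, h]
    · rw [Nat.add_mod, Nat.pow_mod, h]
  obtain ⟨b, hb⟩ := h4
  have h6 : 5 < b := by nlinarith
  exact hMV.2.2.1 j P 5 b hP (by norm_num) h6 hb.symm

theorem t5_two {n : ℕ} (hMV : MV n) {j P : ℕ} (hP : Lv n j P) (h5 : P % 5 = 2) :
    ∃ P', Lv n (j + 2) P' ∧ P' % 5 = 2 := by
  refine ⟨_, hMV.1 _ _ (hMV.1 _ _ hP), ?_⟩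
  have h1 : (P * (P + 1)) % 5 = 1 := by
    rw [Nat.mul_mod, Nat.add_mod, h5]
  rw [Nat.mul_mod, Nat.add_mod, h1]

theorem t5_all {n P : ℕ} (hMV : MV n) (hP : Lv n 3 P) (h25 : P % 25 = 18) :
    ∀ j, (∃ P', Lv n (j + 4) P' ∧ P' % 5 = 2) ∧ ∃ P', Lv n (j + 5) P' ∧ P' % 5 = 2 := by
  intro j
  induction j with
  | zero =>
    refine ⟨⟨_, hMV.1 _ _ hP, ?_⟩, ?_⟩
    · have h1 : P % 5 = 3 := by omega
      rw [Nat.mul_mod, Nat.add_mod, h1]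
    · have h1 : 25 ∣ P ^ 2 + 1 := by
        apply Nat.dvd_of_mod_eq_zero
        rw [Nat.add_mod, Nat.pow_mod, h25]
      obtain ⟨c, hc⟩ := h1
      have h2 : 18 ≤ P := by omega
      have h3 : 5 < 5 * c := by nlinarith
      have h4 := hMV.2.1 3 P 5 (5 * c) hP (by norm_num) h3 (by rw [hc]; ring)
      refine ⟨_, h4, ?_⟩
      have h5 : P % 5 = 3 := by omega
      have h6 : (P + 5 * c) % 5 = 3 := by omega
      have h7 : (P + 5) % 5 = 3 := by omega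
      rw [Nat.mul_mod, Nat.mul_mod P, h5, h6, h7]
  | succ j ih =>
    refine ⟨ih.2, ?_⟩
    obtain ⟨P', h1, h2⟩ := ih.1
    obtain ⟨P'', h3, h4⟩ := t5_two hMV h1 h2
    exact ⟨P'', h3, h4⟩

theorem st_T5 : ST_T5 := by
  intro n P hn hMV hLV hP h25 s hs
  refine ⟨hMV.2.2.2.2 s, ?_⟩
  rcases Nat.lt_or_ge s 5 with h | h
  · have h1 : s = 4 := by omega
    subst h1
    exact t5_grow hn hMV hLV le_rfl hP (Or.inr (by omega))
  · obtain ⟨j, rfl⟩ : ∃ j, s = j + 5 := ⟨s - 5, by omega⟩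
    obtain ⟨P', h1, h2⟩ := (t5_all hMV hP h25 j).1
    exact t5_grow hn hMV hLV (by omega) h1 (Or.inl h2)

end Pool.Agent.Helper2.EG

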